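import Pool.Agent.N728.QG.Def

set_option autoImplicit false

/-! # Project QG (helper728), task GVN (helper559): `e + 1` applications of the Cauchy-Schwarz
inequality -/

namespace Pool.Agent.N559.QG

open Finset

/-! ### One application of the Cauchy-Schwarz inequality -/

/-- the box -/
noncomputable def KB (L Z : ℕ) : Finset (ℤ × ℤ) := Icc (0 : ℤ) L ×ˢ Icc (-(Z : ℤ)) Z

/-- the points of the box on a curve -/
theorem line_sum {L Z : ℕ} (P : ℤ → ℤ) (G : ℤ × ℤ → ℝ) (hG : ∀ p, p ∉ KB L Z → G p = 0)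
    {p : ℤ × ℤ} (hp : p ∈ KB L Z) :
    ∑ q ∈ (KB L Z).filter (fun q => q.2 + P q.1 = p.2 + P p.1), G q =
      ∑ t ∈ Icc (-(L : ℤ)) L, G (p.1 + t, p.2 + P p.1 - P (p.1 + t)) := by
  classical
  have hpar : ∀ q : ℤ × ℤ, q.2 + P q.1 = p.2 + P p.1 →
      q = (p.1 + (q.1 - p.1), p.2 + P p.1 - P (p.1 + (q.1 - p.1))) := by
    intro q hq
    have h1 : p.1 + (q.1 - p.1) = q.1 := by ring
    rw [h1]
    ext
    · rfl
    · simp only
      linarith
  refine Finset.sum_of_injOn (fun q => q.1 - p.1) ?_ ?_ ?_ ?_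
  · intro q hq q' hq' h
    rw [Finset.mem_coe, Finset.mem_filter] at hq hq'
    simp only at h
    rw [hpar q hq.2, hpar q' hq'.2, h]
  · intro q hq
    rw [Finset.mem_coe, Finset.mem_filter] at hq
    have h2 := hq.1
    unfold KB at h2 hp
    rw [Finset.mem_product, Finset.mem_Icc, Finset.mem_Icc] at h2 hp
    simp only [Finset.mem_coe, Finset.mem_Icc]
    constructor <;> linarith [h2.1.1, h2.1.2, hp.1.1, hp.1.2]
  · intro t _ ht
    by_contra hne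
    apply ht
    have h1 : (p.1 + t, p.2 + P p.1 - P (p.1 + t)) ∈ KB L Z := by
      by_contra hc
      exact hne (hG _ hc)
    refine ⟨(p.1 + t, p.2 + P p.1 - P (p.1 + t)), ?_, ?_⟩
    · rw [Finset.mem_coe, Finset.mem_filter]
      refine ⟨h1, ?_⟩
      simp only
      ring
    · simp only
      ring
  · intro q hq
    rw [Finset.mem_filter] at hq
    conv_lhs => rw [hpar q hq.2]

/-- **One application of the Cauchy-Schwarz inequality.** -/
theorem cs {L Z N : ℕ} (P : ℤ → ℤ) (G : ℤ × ℤ → ℝ) (hG : ∀ p, p ∉ KB L Z → G p = 0)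
    (F : ℤ → ℝ) (a : ℤ) (hF : ∀ s, |F s| ≤ 1) (hF0 : ∀ s, ¬ (a < s ∧ s ≤ a + N) → F s = 0) :
    (∑ p ∈ KB L Z, G p * F (p.2 + P p.1)) ^ 2 ≤
      N * ∑ t ∈ Icc (-(L : ℤ)) L,
        ∑ p ∈ KB L Z, G p * G (p.1 + t, p.2 + P p.1 - P (p.1 + t)) := by
  classical
  set l : ℤ × ℤ → ℤ := fun p => p.2 + P p.1 with hl
  set g : ℤ → ℝ := fun s => ∑ p ∈ (KB L Z).filter (fun p => l p = s), G p with hg
  set T : Finset ℤ := (KB L Z).image l with hT
  have h1 : ∑ p ∈ KB L Z, G p * F (p.2 + P p.1) = ∑ s ∈ Ioc a (a + N), F s * g s := by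
    have e1 : ∑ p ∈ KB L Z, G p * F (p.2 + P p.1) = ∑ s ∈ T, F s * g s := by
      rw [← Finset.sum_fiberwise_of_maps_to (t := T) (g := l) fun p hp =>
        Finset.mem_image_of_mem l hp]
      refine Finset.sum_congr rfl fun s _ => ?_
      rw [hg]
      simp only
      rw [Finset.mul_sum]
      refine Finset.sum_congr rfl fun p hp => ?_
      rw [Finset.mem_filter] at hp
      have h2 : p.2 + P p.1 = s := hp.2
      rw [h2, mul_comm]
    rw [e1]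
    have e2 : ∀ s, s ∉ T → g s = 0 := by
      intro s hs
      rw [hg]
      simp only
      rw [Finset.filter_eq_empty_iff.2, Finset.sum_empty]
      intro p hp h2
      exact hs (Finset.mem_image.2 ⟨p, hp, h2⟩)
    have e3 : ∀ s, s ∉ Ioc a (a + N) → F s = 0 := by
      intro s hs
      rw [Finset.mem_Ioc] at hs
      exact hF0 s hs
    have e4 : ∑ s ∈ T, F s * g s = ∑ s ∈ T ∪ Ioc a (a + N), F s * g s := by
      apply Finset.sum_subset Finset.subset_union_left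
      intro s _ hs
      rw [e2 s hs, mul_zero]
    have e5 : ∑ s ∈ Ioc a (a + N), F s * g s = ∑ s ∈ T ∪ Ioc a (a + N), F s * g s := by
      apply Finset.sum_subset Finset.subset_union_right
      intro s _ hs
      rw [e3 s hs, zero_mul]
    rw [e4, e5]
  have h2 : ∑ s ∈ Ioc a (a + N), F s ^ 2 ≤ N := by
    calc ∑ s ∈ Ioc a (a + N), F s ^ 2 ≤ ∑ _s ∈ Ioc a (a + N), (1 : ℝ) := by
          refine Finset.sum_le_sum fun s _ => ?_
          rw [← sq_abs]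
          exact pow_le_one₀ (abs_nonneg _) (hF s)
      _ = N := by
          rw [Finset.sum_const, nsmul_eq_mul, mul_one, Int.card_Ioc]
          have : (a + (N : ℤ) - a).toNat = N := by
            have : a + (N : ℤ) - a = N := by ring
            rw [this, Int.toNat_natCast]
          rw [this]
  have h3 : ∑ s ∈ Ioc a (a + N), g s ^ 2 ≤ ∑ s ∈ T, g s ^ 2 := by
    calc ∑ s ∈ Ioc a (a + N), g s ^ 2 ≤ ∑ s ∈ T ∪ Ioc a (a + N), g s ^ 2 :=
          Finset.sum_le_sum_of_subset_of_nonneg Finset.subset_union_right fun _ _ _ => sq_nonneg _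
      _ = ∑ s ∈ T, g s ^ 2 := by
          symm
          apply Finset.sum_subset Finset.subset_union_left
          intro s _ hs
          have h4 : g s = 0 := by
            rw [hg]
            simp only
            rw [Finset.filter_eq_empty_iff.2, Finset.sum_empty]
            intro p hp h2
            exact hs (Finset.mem_image.2 ⟨p, hp, h2⟩)
          rw [h4]
          norm_num
  have h4 : ∑ s ∈ T, g s ^ 2 = ∑ t ∈ Icc (-(L : ℤ)) L,
        ∑ p ∈ KB L Z, G p * G (p.1 + t, p.2 + P p.1 - P (p.1 + t)) := by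
    rw [Finset.sum_comm]
    have e1 : ∀ p ∈ KB L Z, ∑ t ∈ Icc (-(L : ℤ)) L,
        G p * G (p.1 + t, p.2 + P p.1 - P (p.1 + t)) = G p * g (l p) := by
      intro p hp
      rw [← Finset.mul_sum, ← line_sum P G hG hp]
    rw [Finset.sum_congr rfl e1, ← Finset.sum_fiberwise_of_maps_to (t := T) (g := l) fun p hp =>
        Finset.mem_image_of_mem l hp]
    refine Finset.sum_congr rfl fun s _ => ?_
    have e2 : ∀ p ∈ (KB L Z).filter (fun p => l p = s), G p * g (l p) = G p * g s := by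
      intro p hp
      rw [Finset.mem_filter] at hp
      rw [hp.2]
    rw [Finset.sum_congr rfl e2, ← Finset.sum_mul, sq]
  rw [h1]
  calc (∑ s ∈ Ioc a (a + N), F s * g s) ^ 2
      ≤ (∑ s ∈ Ioc a (a + N), F s ^ 2) * ∑ s ∈ Ioc a (a + N), g s ^ 2 :=
        Finset.sum_mul_sq_le_sq_mul_sq _ _ _
    _ ≤ N * ∑ s ∈ T, g s ^ 2 :=
        mul_le_mul h2 h3 (Finset.sum_nonneg fun _ _ => sq_nonneg _) (Nat.cast_nonneg _)
    _ = _ := by rw [h4]

/-! ### Products over subsets -/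

/-- the product of the shifts of `f` -/
noncomputable def pf {j : ℕ} (f : ℤ → ℤ → ℝ) (c : Finset (Fin j) → (Fin (j + 1) → ℤ) → ℤ)
    (ξ σ : ℤ) (τ : Fin j → ℤ) : ℝ :=
  ∏ ω : Finset (Fin j), f (ξ + ∑ i ∈ ω, τ i) (σ + c ω (Fin.cons ξ τ : Fin (j + 1) → ℤ))

/-- forget the new variable -/
def d0 {j : ℕ} (x : Fin (j + 2) → ℤ) : Fin (j + 1) → ℤ := Fin.cons (x 0) fun i => x i.succ.succ

/-- shift by the new variable -/
def d1 {j : ℕ} (x : Fin (j + 2) → ℤ) : Fin (j + 1) → ℤ :=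
  Fin.cons (x 0 + x 1) fun i => x i.succ.succ

theorem d0_cons {j : ℕ} (ξ t : ℤ) (τ : Fin j → ℤ) :
    d0 (Fin.cons ξ (Fin.cons t τ : Fin (j + 1) → ℤ) : Fin (j + 2) → ℤ) = Fin.cons ξ τ := by
  funext i
  refine Fin.cases ?_ (fun i => ?_) i <;> simp [d0]

theorem d1_cons {j : ℕ} (ξ t : ℤ) (τ : Fin j → ℤ) :
    d1 (Fin.cons ξ (Fin.cons t τ : Fin (j + 1) → ℤ) : Fin (j + 2) → ℤ) = Fin.cons (ξ + t) τ := by
  have e : (Fin.cons ξ (Fin.cons t τ : Fin (j + 1) → ℤ) : Fin (j + 2) → ℤ) 1 = t := rfl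
  funext i
  refine Fin.cases ?_ (fun i => ?_) i
  · simp only [d1, Fin.cons_zero, e]
  · simp [d1]

/-- the trace of a subset on the old indices -/
def pre {j : ℕ} (ω : Finset (Fin (j + 1))) : Finset (Fin j) := univ.filter fun i => i.succ ∈ ω

theorem pre_map {j : ℕ} (ω : Finset (Fin j)) : pre (ω.map (Fin.succEmb j)) = ω := by
  ext i
  simp [pre]

theorem pre_insert {j : ℕ} (ω : Finset (Fin j)) :
    pre (insert 0 (ω.map (Fin.succEmb j))) = ω := by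
  ext i
  simp [pre, Fin.succ_ne_zero]

theorem zero_notMem_map {j : ℕ} (ω : Finset (Fin j)) :
    (0 : Fin (j + 1)) ∉ ω.map (Fin.succEmb j) := by
  simp [Fin.succ_ne_zero]

theorem prod_fin {j : ℕ} (g : Finset (Fin (j + 1)) → ℝ) :
    ∏ ω : Finset (Fin (j + 1)), g ω = (∏ ω : Finset (Fin j), g (ω.map (Fin.succEmb j))) *
      ∏ ω : Finset (Fin j), g (insert 0 (ω.map (Fin.succEmb j))) := by
  classical
  rw [← Finset.prod_filter_not_mul_prod_filter univ (fun ω : Finset (Fin (j + 1)) => 0 ∈ ω)]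
  congr 1
  · symm
    refine Finset.prod_bij' (fun ω _ => ω.map (Fin.succEmb j)) (fun ω _ => pre ω) ?_ ?_ ?_ ?_ ?_
    · intro ω _
      rw [Finset.mem_filter]
      exact ⟨mem_univ _, zero_notMem_map ω⟩
    · intro ω _
      exact mem_univ _
    · intro ω _
      exact pre_map ω
    · intro ω hω
      rw [Finset.mem_filter] at hω
      ext i
      refine Fin.cases ?_ (fun i => ?_) i
      · simp [hω.2, Fin.succ_ne_zero]
      · simp [pre]
    · intro ω _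
      rfl
  · symm
    refine Finset.prod_bij' (fun ω _ => insert 0 (ω.map (Fin.succEmb j))) (fun ω _ => pre ω)
      ?_ ?_ ?_ ?_ ?_
    · intro ω _
      rw [Finset.mem_filter]
      exact ⟨mem_univ _, mem_insert_self _ _⟩
    · intro ω _
      exact mem_univ _
    · intro ω _
      exact pre_insert ω
    · intro ω hω
      rw [Finset.mem_filter] at hω
      ext i
      refine Fin.cases ?_ (fun i => ?_) i
      · simp [hω.2]
      · simp [pre, Fin.succ_ne_zero]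
    · intro ω _
      rfl

/-- the new shifts -/
def cst {j : ℕ} (c : Finset (Fin j) → (Fin (j + 1) → ℤ) → ℤ) (A : (Fin (j + 1) → ℤ) → ℤ) :
    Finset (Fin (j + 1)) → (Fin (j + 2) → ℤ) → ℤ := fun ω x =>
  if (0 : Fin (j + 1)) ∈ ω then c (pre ω) (d1 x) + A (d0 x) - A (d1 x) else c (pre ω) (d0 x)

theorem pf_mul {j : ℕ} (f : ℤ → ℤ → ℝ) (c : Finset (Fin j) → (Fin (j + 1) → ℤ) → ℤ)
    (A : (Fin (j + 1) → ℤ) → ℤ) (ξ σ t : ℤ) (τ : Fin j → ℤ) :
    pf f c ξ σ τ * pf f c (ξ + t) (σ + A (Fin.cons ξ τ) - A (Fin.cons (ξ + t) τ)) τ =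
      pf f (cst c A) ξ σ (Fin.cons t τ) := by
  unfold pf
  rw [prod_fin]
  congr 1
  · refine Finset.prod_congr rfl fun ω _ => ?_
    rw [Finset.sum_map]
    unfold cst
    rw [if_neg (zero_notMem_map ω), pre_map, d0_cons]
    simp
  · refine Finset.prod_congr rfl fun ω _ => ?_
    rw [Finset.sum_insert (zero_notMem_map ω), Finset.sum_map]
    unfold cst
    rw [if_pos (mem_insert_self _ _), pre_insert, d0_cons, d1_cons]
    congr 1
    · simp [add_assoc]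
    · ring

theorem pf_zero {j L Z0 : ℕ} {f : ℤ → ℤ → ℝ}
    (hf : ∀ ξ σ : ℤ, ¬ (0 ≤ ξ ∧ ξ ≤ L ∧ |σ| ≤ Z0) → f ξ σ = 0)
    {c : Finset (Fin j) → (Fin (j + 1) → ℤ) → ℤ} (hc : ∀ x, c ∅ x = 0) {Z : ℕ} (hZ : Z0 ≤ Z)
    (τ : Fin j → ℤ) (p : ℤ × ℤ) (hp : p ∉ KB L Z) : pf f c p.1 p.2 τ = 0 := by
  unfold pf
  refine Finset.prod_eq_zero (mem_univ ∅) ?_
  rw [hc, Finset.sum_empty, add_zero, add_zero]
  apply hf
  intro h
  apply hp
  unfold KB
  rw [Finset.mem_product, Finset.mem_Icc, Finset.mem_Icc]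
  have h1 := abs_le.1 h.2.2
  have h2 : (Z0 : ℤ) ≤ Z := by exact_mod_cast hZ
  refine ⟨⟨h.1, h.2.1⟩, ?_, ?_⟩ <;> linarith [h1.1, h1.2]

theorem sum_cons {j : ℕ} (I : Finset ℤ) (g : (Fin (j + 1) → ℤ) → ℝ) :
    ∑ τ ∈ Fintype.piFinset (fun _ : Fin (j + 1) => I), g τ =
      ∑ τ ∈ Fintype.piFinset (fun _ : Fin j => I), ∑ t ∈ I, g (Fin.cons t τ) := by
  rw [← Finset.sum_product' (s := Fintype.piFinset (fun _ : Fin j => I)) (t := I)
    (f := fun τ t => g (Fin.cons t τ))]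
  symm
  refine Finset.sum_bij' (fun q _ => (Fin.cons q.2 q.1 : Fin (j + 1) → ℤ))
    (fun τ _ => (Fin.tail τ, τ 0)) ?_ ?_ ?_ ?_ ?_
  · intro q hq
    rw [Finset.mem_product, Fintype.mem_piFinset] at hq
    rw [Fintype.mem_piFinset]
    intro i
    refine Fin.cases ?_ (fun i => ?_) i
    · simpa using hq.2
    · simpa using hq.1 i
  · intro τ hτ
    rw [Fintype.mem_piFinset] at hτ
    rw [Finset.mem_product, Fintype.mem_piFinset]
    exact ⟨fun i => hτ i.succ, hτ 0⟩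
  · intro q _
    simp
  · intro τ _
    simp
  · intro q _
    rfl

/-! ### The sums -/

/-- the sum after `j` steps -/
noncomputable def SS {j : ℕ} (L Z : ℕ) (f : ℤ → ℤ → ℝ) (Φ : ℤ → ℝ)
    (c : Finset (Fin j) → (Fin (j + 1) → ℤ) → ℤ) (A R : (Fin (j + 1) → ℤ) → ℤ) : ℝ :=
  ∑ τ ∈ Fintype.piFinset (fun _ : Fin j => Icc (-(L : ℤ)) L), ∑ p ∈ KB L Z,
    pf f c p.1 p.2 τ * (Φ (p.2 + A (Fin.cons p.1 τ)) *
      Φ (p.2 + A (Fin.cons p.1 τ) + R (Fin.cons p.1 τ)))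

/-- the sum after the last step -/
noncomputable def SF {j : ℕ} (L Z : ℕ) (f : ℤ → ℤ → ℝ)
    (c : Finset (Fin j) → (Fin (j + 1) → ℤ) → ℤ) : ℝ :=
  ∑ τ ∈ Fintype.piFinset (fun _ : Fin j => Icc (-(L : ℤ)) L), ∑ p ∈ KB L Z, pf f c p.1 p.2 τ

theorem card_pi (j L : ℕ) (hL : 1 ≤ L) :
    ((Fintype.piFinset (fun _ : Fin j => Icc (-(L : ℤ)) L)).card : ℝ) ≤ (3 * (L : ℝ)) ^ j := by
  rw [Fintype.card_piFinset_const, Int.card_Icc]
  push_cast
  have h1 : (L : ℤ) + 1 - -(L : ℤ) = ((2 * L + 1 : ℕ) : ℤ) := by push_cast; ring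
  rw [h1, Int.toNat_natCast]
  refine pow_le_pow_left₀ (by positivity) ?_ j
  push_cast
  have : (1 : ℝ) ≤ L := by exact_mod_cast hL
  linarith

section steps

variable {j L Z0 Z N : ℕ} (hL : 1 ≤ L) (hZ : Z0 ≤ Z) {f : ℤ → ℤ → ℝ}
  (hf : ∀ ξ σ : ℤ, ¬ (0 ≤ ξ ∧ ξ ≤ L ∧ |σ| ≤ Z0) → f ξ σ = 0) {Φ : ℤ → ℝ} {a : ℤ}
  (hΦ : ∀ s, |Φ s| ≤ 1) (hΦ0 : ∀ s, ¬ (a < s ∧ s ≤ a + N) → Φ s = 0)
  {c : Finset (Fin j) → (Fin (j + 1) → ℤ) → ℤ} (hc : ∀ x, c ∅ x = 0)
  (A R : (Fin (j + 1) → ℤ) → ℤ)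

include hL hZ hf hΦ hΦ0 hc

theorem step : SS L Z f Φ c A R ^ 2 ≤ (3 * (L : ℝ)) ^ j * N *
    SS L Z f Φ (cst c A) (fun x => A (d0 x) + R (d0 x)) (fun x => R (d1 x) - R (d0 x)) := by
  unfold SS
  rw [sum_cons]
  have h1 : ∀ τ : Fin j → ℤ, (∑ p ∈ KB L Z, pf f c p.1 p.2 τ * (Φ (p.2 + A (Fin.cons p.1 τ)) *
      Φ (p.2 + A (Fin.cons p.1 τ) + R (Fin.cons p.1 τ)))) ^ 2 ≤
      N * ∑ t ∈ Icc (-(L : ℤ)) L, ∑ p ∈ KB L Z, pf f (cst c A) p.1 p.2 (Fin.cons t τ) *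
        (Φ (p.2 + (A (d0 (Fin.cons p.1 (Fin.cons t τ : Fin (j + 1) → ℤ))) +
          R (d0 (Fin.cons p.1 (Fin.cons t τ : Fin (j + 1) → ℤ))))) *
        Φ (p.2 + (A (d0 (Fin.cons p.1 (Fin.cons t τ : Fin (j + 1) → ℤ))) +
          R (d0 (Fin.cons p.1 (Fin.cons t τ : Fin (j + 1) → ℤ)))) +
          (R (d1 (Fin.cons p.1 (Fin.cons t τ : Fin (j + 1) → ℤ))) -
            R (d0 (Fin.cons p.1 (Fin.cons t τ : Fin (j + 1) → ℤ)))))) := by
    intro τ
    have h2 := cs (L := L) (Z := Z) (N := N) (fun ξ => A (Fin.cons ξ τ))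
      (fun p => pf f c p.1 p.2 τ * Φ (p.2 + A (Fin.cons p.1 τ) + R (Fin.cons p.1 τ)))
      (fun p hp => by rw [pf_zero hf hc hZ τ p hp, zero_mul]) Φ a hΦ hΦ0
    refine le_trans (le_of_eq ?_) (h2.trans (le_of_eq ?_))
    · congr 1
      refine Finset.sum_congr rfl fun p _ => ?_
      ring
    · congr 1
      refine Finset.sum_congr rfl fun t _ => Finset.sum_congr rfl fun p _ => ?_
      rw [← pf_mul, d0_cons, d1_cons]
      simp only
      have e1 : p.2 + A (Fin.cons p.1 τ) - A (Fin.cons (p.1 + t) τ) + A (Fin.cons (p.1 + t) τ) +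
          R (Fin.cons (p.1 + t) τ) = p.2 + (A (Fin.cons p.1 τ) + R (Fin.cons p.1 τ)) +
          (R (Fin.cons (p.1 + t) τ) - R (Fin.cons p.1 τ)) := by ring
      rw [e1, add_assoc p.2]
      ring
  refine (sq_sum_le_card_mul_sum_sq).trans ?_
  rw [mul_assoc, Finset.mul_sum (a := (N : ℝ))]
  refine mul_le_mul (card_pi j L hL) (Finset.sum_le_sum fun τ _ => h1 τ)
    (Finset.sum_nonneg fun _ _ => sq_nonneg _) (by positivity)

theorem last (hR : ∀ ξ (τ : Fin j → ℤ), R (Fin.cons ξ τ) = R (Fin.cons 0 τ)) :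
    SS L Z f Φ c A R ^ 2 ≤ (3 * (L : ℝ)) ^ j * N * SF L Z f (cst c A) := by
  unfold SS SF
  rw [sum_cons]
  have h1 : ∀ τ : Fin j → ℤ, (∑ p ∈ KB L Z, pf f c p.1 p.2 τ * (Φ (p.2 + A (Fin.cons p.1 τ)) *
      Φ (p.2 + A (Fin.cons p.1 τ) + R (Fin.cons p.1 τ)))) ^ 2 ≤
      N * ∑ t ∈ Icc (-(L : ℤ)) L, ∑ p ∈ KB L Z, pf f (cst c A) p.1 p.2 (Fin.cons t τ) := by
    intro τ
    have h2 := cs (L := L) (Z := Z) (N := N) (fun ξ => A (Fin.cons ξ τ))
      (fun p => pf f c p.1 p.2 τ) (fun p hp => pf_zero hf hc hZ τ p hp)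
      (fun s => Φ s * Φ (s + R (Fin.cons 0 τ))) a (fun s => by
        rw [abs_mul]
        exact mul_le_one₀ (hΦ _) (abs_nonneg _) (hΦ _)) (fun s hs => by rw [hΦ0 s hs, zero_mul])
    refine le_trans (le_of_eq ?_) (h2.trans (le_of_eq ?_))
    · congr 1
      refine Finset.sum_congr rfl fun p _ => ?_
      rw [hR p.1 τ]
    · congr 1
      refine Finset.sum_congr rfl fun t _ => Finset.sum_congr rfl fun p _ => ?_
      rw [← pf_mul]
  refine (sq_sum_le_card_mul_sum_sq).trans ?_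
  rw [mul_assoc, Finset.mul_sum (a := (N : ℝ))]
  refine mul_le_mul (card_pi j L hL) (Finset.sum_le_sum fun τ _ => h1 τ)
    (Finset.sum_nonneg fun _ _ => sq_nonneg _) (by positivity)

end steps

/-! ### Polynomial functions -/

/-- polynomial functions of total degree at most `e` -/
def IsPol {n : ℕ} (e : ℕ) (F : (Fin n → ℤ) → ℤ) : Prop :=
  ∃ p : MvPolynomial (Fin n) ℤ, p.totalDegree ≤ e ∧ ∀ x, MvPolynomial.eval x p = F x

theorem IsPol.zero {n e : ℕ} : IsPol (n := n) e (fun _ => 0) := ⟨0, by simp, fun x => by simp⟩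

theorem IsPol.add {n e : ℕ} {F G : (Fin n → ℤ) → ℤ} (hF : IsPol e F) (hG : IsPol e G) :
    IsPol e (fun x => F x + G x) := by
  obtain ⟨p, p1, p2⟩ := hF
  obtain ⟨q, q1, q2⟩ := hG
  exact ⟨p + q, (MvPolynomial.totalDegree_add _ _).trans (max_le p1 q1), fun x => by
    rw [map_add, p2, q2]⟩

theorem IsPol.sub {n e : ℕ} {F G : (Fin n → ℤ) → ℤ} (hF : IsPol e F) (hG : IsPol e G) :
    IsPol e (fun x => F x - G x) := by
  obtain ⟨p, p1, p2⟩ := hF
  obtain ⟨q, q1, q2⟩ := hG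
  exact ⟨p - q, (MvPolynomial.totalDegree_sub _ _).trans (max_le p1 q1), fun x => by
    rw [map_sub, p2, q2]⟩

theorem IsPol.comp {n m e : ℕ} {F : (Fin n → ℤ) → ℤ} (hF : IsPol e F)
    (q : Fin n → MvPolynomial (Fin m) ℤ) (hq : ∀ i, (q i).totalDegree ≤ 1) :
    IsPol e (fun x => F (fun i => MvPolynomial.eval x (q i))) := by
  obtain ⟨p, p1, p2⟩ := hF
  refine ⟨MvPolynomial.bind₁ q p, ?_, fun x => ?_⟩
  · rw [MvPolynomial.bind₁, MvPolynomial.aeval_def, MvPolynomial.eval₂_eq']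
    refine MvPolynomial.totalDegree_finsetSum_le fun d hd => ?_
    refine (MvPolynomial.totalDegree_mul _ _).trans ?_
    have h1 : (algebraMap ℤ (MvPolynomial (Fin m) ℤ) (p.coeff d)).totalDegree = 0 :=
      MvPolynomial.totalDegree_C _
    rw [h1, zero_add]
    refine (MvPolynomial.totalDegree_finsetProd _ _).trans ?_
    have h2 : ∀ i, (q i ^ d i).totalDegree ≤ d i := fun i =>
      (MvPolynomial.totalDegree_pow _ _).trans (by nlinarith [hq i])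
    refine (Finset.sum_le_sum fun i _ => h2 i).trans ?_
    have h3 := (MvPolynomial.le_totalDegree hd).trans p1
    rwa [Finsupp.sum_fintype _ _ (fun _ => rfl)] at h3
  · have h1 := MvPolynomial.eval₂Hom_bind₁ (RingHom.id ℤ) x q p
    exact h1.trans (p2 _)

theorem IsPol.d0 {j e : ℕ} {F : (Fin (j + 1) → ℤ) → ℤ} (hF : IsPol e F) :
    IsPol e (fun x : Fin (j + 2) → ℤ => F (d0 x)) := by
  have h := hF.comp (m := j + 2) (Fin.cons (MvPolynomial.X 0) fun i => MvPolynomial.X i.succ.succ)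
    (fun i => by
      refine Fin.cases ?_ (fun i => ?_) i
      · simp
      · simp)
  have e1 : (fun x : Fin (j + 2) → ℤ => F (Pool.Agent.N559.QG.d0 x)) =
      fun x => F (fun i => MvPolynomial.eval x ((Fin.cons (MvPolynomial.X 0) fun i =>
        MvPolynomial.X i.succ.succ : Fin (j + 1) → MvPolynomial (Fin (j + 2)) ℤ) i)) := by
    funext x
    congr 1
    funext i
    refine Fin.cases ?_ (fun i => ?_) i <;> simp [Pool.Agent.N559.QG.d0]
  rw [e1]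
  exact h

theorem IsPol.d1 {j e : ℕ} {F : (Fin (j + 1) → ℤ) → ℤ} (hF : IsPol e F) :
    IsPol e (fun x : Fin (j + 2) → ℤ => F (d1 x)) := by
  have h := hF.comp (m := j + 2) (Fin.cons (MvPolynomial.X 0 + MvPolynomial.X 1) fun i =>
      MvPolynomial.X i.succ.succ)
    (fun i => by
      refine Fin.cases ?_ (fun i => ?_) i
      · rw [Fin.cons_zero]
        exact (MvPolynomial.totalDegree_add _ _).trans (by simp)
      · simp)
  have e1 : (fun x : Fin (j + 2) → ℤ => F (Pool.Agent.N559.QG.d1 x)) =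
      fun x => F (fun i => MvPolynomial.eval x ((Fin.cons (MvPolynomial.X 0 + MvPolynomial.X 1)
        fun i => MvPolynomial.X i.succ.succ : Fin (j + 1) → MvPolynomial (Fin (j + 2)) ℤ) i)) := by
    funext x
    congr 1
    funext i
    refine Fin.cases ?_ (fun i => ?_) i <;> simp [Pool.Agent.N559.QG.d1]
  rw [e1]
  exact h

theorem IsPol.cst {j e : ℕ} {c : Finset (Fin j) → (Fin (j + 1) → ℤ) → ℤ}
    (hc : ∀ ω, IsPol e (c ω)) {A : (Fin (j + 1) → ℤ) → ℤ} (hA : IsPol e A)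
    (ω : Finset (Fin (j + 1))) : IsPol e (cst c A ω) := by
  unfold Pool.Agent.N559.QG.cst
  split_ifs
  · exact ((hc _).d1.add hA.d0).sub hA.d1
  · exact (hc _).d0

theorem IsPol.uni {n e : ℕ} {Q : Polynomial ℤ} (hQ : Q.natDegree ≤ e)
    {l : MvPolynomial (Fin n) ℤ} (hl : l.totalDegree ≤ 1) :
    IsPol e (fun x => Q.eval (MvPolynomial.eval x l)) := by
  refine ⟨Polynomial.aeval l Q, ?_, fun x => ?_⟩
  · rw [Polynomial.aeval_eq_sum_range]
    refine MvPolynomial.totalDegree_finsetSum_le fun i hi => ?_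
    refine (MvPolynomial.totalDegree_smul_le _ _).trans ((MvPolynomial.totalDegree_pow _ _).trans ?_)
    have h1 : i ≤ Q.natDegree := Nat.lt_succ_iff.1 (Finset.mem_range.1 hi)
    nlinarith
  · rw [Polynomial.aeval_def, Polynomial.hom_eval₂]
    have h1 : (MvPolynomial.eval x).comp (algebraMap ℤ (MvPolynomial (Fin n) ℤ)) = RingHom.id ℤ :=
      RingHom.ext_int _ _
    rw [h1]
    rfl

/-- degree in one variable -/
def DegLe (k : ℕ) (g : ℤ → ℤ) : Prop := ∃ r : Polynomial ℤ, r.natDegree ≤ k ∧ ∀ ξ, r.eval ξ = g ξ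

theorem DegLe.diff {k : ℕ} {g : ℤ → ℤ} (hg : DegLe k g) (t : ℤ) :
    DegLe (k - 1) (fun ξ => g (ξ + t) - g ξ) := by
  obtain ⟨r, r1, r2⟩ := hg
  refine ⟨Polynomial.taylor t r - r, ?_, fun ξ => ?_⟩
  · rcases Nat.eq_zero_or_pos r.natDegree with h | h
    · rw [Polynomial.eq_C_of_natDegree_eq_zero h, Polynomial.taylor_C, sub_self]
      simp
    · have hr0 : r ≠ 0 := by
        rintro rfl
        simp at h
      have h1 : (r - Polynomial.taylor t r).degree < r.degree :=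
        Polynomial.degree_sub_lt_left (Polynomial.degree_taylor r t).symm hr0
          (Polynomial.leadingCoeff_taylor t r).symm
      rw [← Polynomial.natDegree_neg, neg_sub]
      by_cases h2 : r - Polynomial.taylor t r = 0
      · rw [h2]; simp
      · have h3 := Polynomial.natDegree_lt_natDegree h2 h1
        omega
  · rw [Polynomial.eval_sub, Polynomial.taylor_eval, r2, r2]

theorem DegLe.const {g : ℤ → ℤ} (hg : DegLe 0 g) (ξ : ℤ) : g ξ = g 0 := by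
  obtain ⟨r, r1, r2⟩ := hg
  rw [← r2, ← r2, Polynomial.eq_C_of_natDegree_eq_zero (Nat.le_zero.1 r1)]
  simp

/-! ### The induction -/

/-- the hypotheses -/
structure Hyp (L N1 N2 Z0 : ℕ) (a1 a2 : ℤ) (f : ℤ → ℤ → ℝ) (Φ1 Φ2 : ℤ → ℝ) : Prop where
  hL : 1 ≤ L
  hN1 : 1 ≤ N1
  hN2 : 1 ≤ N2
  hf : ∀ ξ σ : ℤ, ¬ (0 ≤ ξ ∧ ξ ≤ L ∧ |σ| ≤ Z0) → f ξ σ = 0
  h1 : ∀ σ : ℤ, |Φ1 σ| ≤ 1
  h2 : ∀ σ : ℤ, |Φ2 σ| ≤ 1
  s1 : ∀ σ : ℤ, ¬ (a1 < σ ∧ σ ≤ a1 + N1) → Φ1 σ = 0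
  s2 : ∀ σ : ℤ, ¬ (a2 < σ ∧ σ ≤ a2 + N2) → Φ2 σ = 0

theorem pow_aux (j : ℕ) : j + 2 ≤ 2 ^ (j + 1) := by
  induction j with
  | zero => norm_num
  | succ j ih => rw [pow_succ]; omega

/-- the sum at the beginning -/
noncomputable def S0 (L Z : ℕ) (Q : Polynomial ℤ) (f : ℤ → ℤ → ℝ) (Φ1 Φ2 : ℤ → ℝ) : ℝ :=
  ∑ p ∈ KB L Z, f p.1 p.2 * Φ1 p.2 * Φ2 (p.2 + Q.eval p.1)

theorem combine {S T X N1 N2 M : ℝ} {j : ℕ} (hN1 : 1 ≤ N1) (hN2 : 1 ≤ N2) (hM : 1 ≤ M)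
    (h : |S| ^ (2 ^ (j + 1)) ≤ N1 ^ (2 ^ j) * N2 ^ (2 ^ j - 1) * M ^ (2 ^ (j + 1) - (j + 1) - 1) * T)
    (h2 : T ^ 2 ≤ M ^ (j + 1) * N2 * X) :
    |S| ^ (2 ^ (j + 2)) ≤ N1 ^ (2 ^ (j + 1)) * N2 ^ (2 ^ (j + 1) - 1) *
      M ^ (2 ^ (j + 2) - (j + 2) - 1) * X := by
  have e0 : 1 ≤ 2 ^ j := Nat.one_le_two_pow
  have e1 : |S| ^ (2 ^ (j + 2)) = (|S| ^ (2 ^ (j + 1))) ^ 2 := by
    rw [← pow_mul, ← pow_succ]
  have e2 : N1 ^ (2 ^ (j + 1)) = (N1 ^ (2 ^ j)) ^ 2 := by rw [← pow_mul, ← pow_succ]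
  have e3 : N2 ^ (2 ^ (j + 1) - 1) = (N2 ^ (2 ^ j - 1)) ^ 2 * N2 := by
    rw [← pow_mul, ← pow_succ]
    congr 1
    rw [pow_succ]
    omega
  have e4 : M ^ (2 ^ (j + 2) - (j + 2) - 1) = (M ^ (2 ^ (j + 1) - (j + 1) - 1)) ^ 2 *
      M ^ (j + 1) := by
    rw [← pow_mul, ← pow_add]
    congr 1
    have := pow_aux j
    rw [pow_succ 2 (j + 1)]
    omega
  rw [e1, e2, e3, e4]
  have h3 := pow_le_pow_left₀ (by positivity : (0:ℝ) ≤ |S| ^ (2 ^ (j + 1))) h 2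
  refine h3.trans ?_
  rw [mul_pow, mul_pow, mul_pow]
  have h4 : 0 ≤ (N1 ^ (2 ^ j)) ^ 2 * (N2 ^ (2 ^ j - 1)) ^ 2 *
      (M ^ (2 ^ (j + 1) - (j + 1) - 1)) ^ 2 := by positivity
  refine (mul_le_mul_of_nonneg_left h2 h4).trans (le_of_eq ?_)
  ring

theorem main_ind (e : ℕ) (Q : Polynomial ℤ) (hQ : Q.natDegree ≤ e) :
    ∀ j : ℕ, j + 1 ≤ e → ∃ (c : Finset (Fin (j + 1)) → (Fin (j + 2) → ℤ) → ℤ)
      (A R : (Fin (j + 2) → ℤ) → ℤ), (∀ ω, IsPol e (c ω)) ∧ IsPol e A ∧ IsPol e R ∧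
      (∀ x, c ∅ x = 0) ∧ (∀ τ : Fin (j + 1) → ℤ, DegLe (e - (j + 1)) fun ξ => R (Fin.cons ξ τ)) ∧
      ∀ (L N1 N2 Z0 : ℕ) (a1 a2 : ℤ) (f : ℤ → ℤ → ℝ) (Φ1 Φ2 : ℤ → ℝ),
        Hyp L N1 N2 Z0 a1 a2 f Φ1 Φ2 → ∀ Z : ℕ, Z0 ≤ Z → |S0 L Z Q f Φ1 Φ2| ^ (2 ^ (j + 1)) ≤
          (N1 : ℝ) ^ (2 ^ j) * (N2 : ℝ) ^ (2 ^ j - 1) *
            (3 * (L : ℝ)) ^ (2 ^ (j + 1) - (j + 1) - 1) * SS L Z f Φ2 c A R := by
  intro j
  induction j with
  | zero =>
    intro _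
    refine ⟨cst (j := 0) (fun _ _ => 0) (fun _ => 0), fun x => Q.eval (x 0),
      fun x => Q.eval (x 0 + x 1) - Q.eval (x 0), IsPol.cst (fun _ => IsPol.zero) IsPol.zero,
      ?_, ?_, ?_, ?_, ?_⟩
    · have := IsPol.uni (n := 0 + 2) hQ (l := MvPolynomial.X 0) (by simp)
      simpa using this
    · have h1 := IsPol.uni (n := 0 + 2) hQ (l := MvPolynomial.X 0) (by simp)
      have h2 := IsPol.uni (n := 0 + 2) hQ (l := MvPolynomial.X 0 + MvPolynomial.X 1)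
        ((MvPolynomial.totalDegree_add _ _).trans (by simp))
      have h3 := h2.sub h1
      simpa using h3
    · intro x
      simp [cst]
    · intro τ
      have h1 : DegLe e (fun ξ => Q.eval ξ) := ⟨Q, hQ, fun _ => rfl⟩
      have h2 := h1.diff (τ 0)
      exact h2
    · intro L N1 N2 Z0 a1 a2 f Φ1 Φ2 H Z hZ
      have hc0 : ∀ x : Fin 1 → ℤ, (fun (_ : Finset (Fin 0)) (_ : Fin (0 + 1) → ℤ) => (0:ℤ)) ∅ x = 0 :=
        fun _ => rfl
      have h2 := cs (L := L) (Z := Z) (N := N1) (fun _ => 0)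
        (fun p => pf (j := 0) f (fun _ _ => 0) p.1 p.2 (fun i => i.elim0) *
          Φ2 (p.2 + Q.eval p.1)) (fun p hp => by
          rw [pf_zero H.hf (fun _ => rfl) hZ _ p hp, zero_mul]) Φ1 a1 H.h1 H.s1
      have e1 : ∀ ξ σ : ℤ, pf (j := 0) f (fun _ _ => 0) ξ σ (fun i => i.elim0) = f ξ σ := by
        intro ξ σ
        have h5 : ∀ s : Finset (Fin 0), ∑ i ∈ s, (i.elim0 : ℤ) = 0 := fun s =>
          Finset.sum_eq_zero fun i _ => i.elim0
        unfold pf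
        simp [h5]
      have e3 : S0 L Z Q f Φ1 Φ2 = ∑ p ∈ KB L Z, pf (j := 0) f (fun _ _ => 0) p.1 p.2
          (fun i => i.elim0) * Φ2 (p.2 + Q.eval p.1) * Φ1 (p.2 + 0) := by
        unfold S0
        refine Finset.sum_congr rfl fun p _ => ?_
        rw [e1, add_zero]
        ring
      have e4 : SS L Z f Φ2 (cst (j := 0) (fun _ _ => 0) (fun _ => 0)) (fun x => Q.eval (x 0))
          (fun x => Q.eval (x 0 + x 1) - Q.eval (x 0)) = ∑ t ∈ Icc (-(L : ℤ)) L,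
          ∑ p ∈ KB L Z, pf (j := 0) f (fun _ _ => 0) p.1 p.2 (fun i => i.elim0) *
            Φ2 (p.2 + Q.eval p.1) * (pf (j := 0) f (fun _ _ => 0) (p.1 + t) (p.2 + 0 - 0)
              (fun i => i.elim0) * Φ2 (p.2 + 0 - 0 + Q.eval (p.1 + t))) := by
        unfold SS
        rw [sum_cons]
        have e5 : Fintype.piFinset (fun _ : Fin 0 => Icc (-(L : ℤ)) L) =
            {(fun i => i.elim0 : Fin 0 → ℤ)} := by
          ext x
          simp only [Fintype.mem_piFinset, Finset.mem_singleton]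
          constructor
          · intro _
            funext i
            exact i.elim0
          · intro _ i
            exact i.elim0
        rw [e5, Finset.sum_singleton]
        refine Finset.sum_congr rfl fun t _ => Finset.sum_congr rfl fun p _ => ?_
        rw [← pf_mul]
        have e6 : (Fin.cons p.1 (Fin.cons t (fun i => i.elim0) : Fin (0 + 1) → ℤ) :
            Fin (0 + 1 + 1) → ℤ) 0 = p.1 := rfl
        have e7 : (Fin.cons p.1 (Fin.cons t (fun i => i.elim0) : Fin (0 + 1) → ℤ) :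
            Fin (0 + 1 + 1) → ℤ) 1 = t := rfl
        simp only [e6, e7]
        have e8 : p.2 + Polynomial.eval p.1 Q + (Polynomial.eval (p.1 + t) Q -
            Polynomial.eval p.1 Q) = p.2 + 0 - 0 + Polynomial.eval (p.1 + t) Q := by ring
        rw [e8]
        ring
      rw [e4]
      simp only [zero_add, pow_one, pow_zero, le_refl, tsub_eq_zero_of_le, mul_one]
      rw [sq_abs, e3]
      exact h2
  | succ j ih =>
    intro hj
    obtain ⟨c, A, R, c1, c2, c3, c4, c5, c6⟩ := ih (by omega)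
    refine ⟨cst c A, fun x => A (d0 x) + R (d0 x), fun x => R (d1 x) - R (d0 x),
      IsPol.cst c1 c2, c2.d0.add c3.d0, c3.d1.sub c3.d0, ?_, ?_, ?_⟩
    · intro x
      unfold cst
      rw [if_neg (Finset.notMem_empty _)]
      have : pre (∅ : Finset (Fin (j + 1 + 1))) = ∅ := by
        ext i
        simp [pre]
      rw [this, c4]
    · intro τ
      have h1 := (c5 (Fin.tail τ)).diff (τ 0)
      have h2 : e - (j + 1) - 1 = e - (j + 1 + 1) := by omega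
      rw [h2] at h1
      have h3 : ∀ ξ : ℤ, (Fin.cons ξ τ : Fin (j + 1 + 2) → ℤ) =
          Fin.cons ξ (Fin.cons (τ 0) (Fin.tail τ) : Fin (j + 1 + 1) → ℤ) := by
        intro ξ
        rw [Fin.cons_self_tail]
      simp only [h3, d0_cons, d1_cons]
      exact h1
    · intro L N1 N2 Z0 a1 a2 f Φ1 Φ2 H Z hZ
      have h1 := c6 L N1 N2 Z0 a1 a2 f Φ1 Φ2 H Z hZ
      have h2 := step H.hL hZ H.hf H.h2 H.s2 c4 A R
      have k1 : (1 : ℝ) ≤ N1 := by exact_mod_cast H.hN1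
      have k2 : (1 : ℝ) ≤ N2 := by exact_mod_cast H.hN2
      have k3 : (1 : ℝ) ≤ L := by exact_mod_cast H.hL
      exact combine k1 k2 (by linarith) h1 h2

theorem S0_eq (L Z : ℕ) (Q : Polynomial ℤ) (f : ℤ → ℤ → ℝ) (Φ1 Φ2 : ℤ → ℝ) :
    ∑ ξ ∈ Icc (0 : ℤ) L, ∑ σ ∈ Icc (-(Z : ℤ)) Z, f ξ σ * Φ1 σ * Φ2 (σ + Q.eval ξ) =
      S0 L Z Q f Φ1 Φ2 := by
  unfold S0 KB
  rw [Finset.sum_product]

/-- **GVN** -/
theorem t_GVN : Pool.Agent.N728.QG.S_GVN := by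
  intro e Q he hQ
  obtain ⟨k, rfl⟩ : ∃ k, e = k + 1 := ⟨e - 1, by omega⟩
  obtain ⟨c, A, R, c1, c2, c3, c4, c5, c6⟩ := main_ind (k + 1) Q hQ k le_rfl
  choose S s1 s2 using IsPol.cst c1 c2
  refine ⟨S, s1, fun L N1 N2 Z0 a1 a2 f Φ1 Φ2 hL hN1 hN2 hf h1 h2 g1 g2 => ⟨Z0, fun Z hZ => ?_⟩⟩
  have H : Hyp L N1 N2 Z0 a1 a2 f Φ1 Φ2 := ⟨hL, hN1, hN2, hf, h1, h2, g1, g2⟩
  rw [S0_eq]
  have h3 := c6 L N1 N2 Z0 a1 a2 f Φ1 Φ2 H Z hZ
  have h4 := last H.hL hZ H.hf H.h2 H.s2 c4 A R (fun ξ τ => by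
    have h5 := c5 τ
    rw [Nat.sub_self] at h5
    exact h5.const ξ)
  have k1 : (1 : ℝ) ≤ N1 := by exact_mod_cast H.hN1
  have k2 : (1 : ℝ) ≤ N2 := by exact_mod_cast H.hN2
  have k3 : (1 : ℝ) ≤ L := by exact_mod_cast H.hL
  have h6 := combine k1 k2 (by linarith) h3 h4
  have e1 : 2 ^ (k + 2) - (k + 2) - 1 = 2 ^ (k + 1 + 1) - (k + 1) - 2 := by
    rw [show k + 1 + 1 = k + 2 from rfl]
    generalize 2 ^ (k + 2) = y
    omega
  rw [e1] at h6
  refine h6.trans (mul_le_mul_of_nonneg_left ?_ (by positivity))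
  unfold SF
  refine Finset.sum_le_sum fun τ _ => (le_of_eq ?_).trans (le_abs_self _)
  unfold KB pf
  rw [Finset.sum_product]
  refine Finset.sum_congr rfl fun ξ _ => Finset.sum_congr rfl fun σ _ =>
    Finset.prod_congr rfl fun ω _ => ?_
  rw [s2]

end Pool.Agent.N559.QG
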